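import Pool.Agent.H87.D3.Targets3

/-! Board d3h (MP_2697e3_an), row REC: the recursion. -/

namespace Pool.Agent.H3.D3

open MeasureTheory Metric Set Filter Topology Pool.Agent.H87.SN Pool.Agent.H87.SH Pool.Agent.H87.AX
open Pool.Agent.H87.D3
open scoped ContDiff RealInnerProductSpace ENNReal

noncomputable section

theorem norm_bv (i : Fin (1 + 2)) : ‖(bv i : V)‖ = 1 := by
  simp [bv]

/-- An isometry which maps the third basis vector to a given unit vector. -/
theorem exists_iso (v : V) (hv : ‖v‖ = 1) : ∃ g : V ≃ₗᵢ[ℝ] V, g (bv 2) = v :=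
  ⟨(Submodule.reflection (ℝ ∙ ((bv 2 : V) - v))ᗮ), by
    exact Submodule.reflection_sub (by rw [norm_bv, hv])⟩

theorem rho_le (x : V) : ‖x‖ ≤ rho x + |x 2| := by
  have h0 : ‖x‖ ^ 2 = x 0 ^ 2 + x 1 ^ 2 + x 2 ^ 2 := by
    rw [EuclideanSpace.norm_sq_eq]
    simp only [Real.norm_eq_abs, sq_abs]
    rw [show (∑ i : Fin (1 + 2), x i ^ 2) = ∑ i : Fin 3, x i ^ 2 from rfl, Fin.sum_univ_three]
  have h1 : rho x ^ 2 = x 0 ^ 2 + x 1 ^ 2 := by
    unfold rho
    exact Real.sq_sqrt (by positivity)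
  have h2 : 0 ≤ rho x := Real.sqrt_nonneg _
  have h3 : 0 ≤ |x 2| := abs_nonneg _
  have h4 : |x 2| ^ 2 = x 2 ^ 2 := sq_abs _
  nlinarith [norm_nonneg x, mul_nonneg h2 h3, sq_nonneg (‖x‖ - (rho x + |x 2|))]

/-- averaging of an inequality over a set of positive finite volume -/
theorem avg_le {B : Set V} {b : ℝ} (hb : 0 < b)
    (hv : volume B = ENNReal.ofReal b) {X a d c : ℝ≥0∞} {f : V → ℝ≥0∞} (hf : Measurable f)
    (h : ∀ x ∈ B, X ≤ c * (a + d * f x)) :
    X ≤ c * (a + d * (ENNReal.ofReal b⁻¹ * ∫⁻ x in B, f x)) := by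
  have hbb : ENNReal.ofReal b * ENNReal.ofReal b⁻¹ = 1 := by
    rw [← ENNReal.ofReal_mul hb.le, mul_inv_cancel₀ hb.ne', ENNReal.ofReal_one]
  have h1 : X * ENNReal.ofReal b ≤ c * (a * ENNReal.ofReal b + d * ∫⁻ x in B, f x) := by
    calc X * ENNReal.ofReal b = ∫⁻ _ in B, X := by
          rw [setLIntegral_const, hv]
      _ ≤ ∫⁻ x in B, c * (a + d * f x) := setLIntegral_mono (by fun_prop) h
      _ = c * ∫⁻ x in B, (a + d * f x) := lintegral_const_mul _ (by fun_prop)
      _ = c * ((∫⁻ _ in B, a) + ∫⁻ x in B, d * f x) := by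
          rw [lintegral_add_left (by fun_prop)]
      _ = c * (a * ENNReal.ofReal b + d * ∫⁻ x in B, f x) := by
          rw [setLIntegral_const, hv, lintegral_const_mul _ hf]
  calc X = X * ENNReal.ofReal b * ENNReal.ofReal b⁻¹ := by
        rw [mul_assoc, hbb, mul_one]
    _ ≤ c * (a * ENNReal.ofReal b + d * ∫⁻ x in B, f x) * ENNReal.ofReal b⁻¹ :=
        mul_le_mul_left h1 _
    _ = c * (a * (ENNReal.ofReal b * ENNReal.ofReal b⁻¹) +
        d * (ENNReal.ofReal b⁻¹ * ∫⁻ x in B, f x)) := by ring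
    _ = _ := by rw [hbb, mul_one]

theorem measurable_bs (hBTM : T_BTM) {m : ℕ} {G : V → V →L[ℝ] E m}
    (hG : MemLp G 2 (volume.restrict (ball (0 : V) 2))) {t : ℝ} (ht : 0 < t) :
    Measurable (fun x => bs G x t) := by
  unfold bs
  exact (hBTM m G hG t ht).pow_const _

/-- transport of an integral of beta numbers -/
theorem transport (hZMU : T_ZMU) (hBTM : T_BTM) {m : ℕ} {G : V → V →L[ℝ] E m}
    (hG : MemLp G 2 (volume.restrict (ball (0 : V) 2))) (c : V) {R : ℝ} (g : V ≃ₗᵢ[ℝ] V)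
    (hR : 0 < R) (hb : ball c (2 * R) ⊆ ball 0 2) {S : Set V} (hS : MeasurableSet S) {t e : ℝ}
    (ht : 0 < t) (x : V) (hS2 : ∀ y ∈ S, ball y (8 * t) ⊆ ball 0 2)
    (hS3 : ∀ y ∈ S, e ≤ th (zG c R g G) y t) (hS4 : ∀ y ∈ S, zm c R g y ∈ ball x R) :
    ∫⁻ y in S, bs (zG c R g G) y t ≤ ENNReal.ofReal ((R ^ 3)⁻¹) *
      ∫⁻ z in {z : V | z ∈ ball x R ∧ e ≤ th G z (R * t)}, bs G z (R * t) := by
  obtain ⟨-, -, h3, -, h5, h6⟩ := hZMU m G c R g hG hR hb
  have hm := measurable_bs hBTM hG (mul_pos hR ht)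
  have e1 : ∫⁻ y in S, bs (zG c R g G) y t = ∫⁻ y in S, bs G (zm c R g y) (R * t) := by
    refine setLIntegral_congr_fun hS (fun y hy => ?_)
    simp only [bs]
    rw [h6 y t ht (hS2 y hy)]
  rw [e1, h3 (fun z => bs G z (R * t)) S hm hS]
  refine mul_le_mul_right (lintegral_mono_set ?_) _
  rintro z ⟨y, hy, rfl⟩
  refine ⟨hS4 y hy, ?_⟩
  have := hS3 y hy
  rwa [h5 y t ht ((ball_subset_ball (by linarith)).trans (hS2 y hy))] at this

theorem pf_REC (_hMUF : T_MUF) (hPTS : T_PTS) (hZMU : T_ZMU) (hZOM : T_ZOM) (_hBTF : T_BTF)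
    (hBTM : T_BTM) (hLO2 : T_LO2) : T_REC := by
  intro m L Λ ε e hL hΛ hε he heΛ hEP
  obtain ⟨C, hC, hLO⟩ := hLO2 m L Λ ε e hL hΛ hε he heΛ hEP
  -- the volume of the small ball
  set B : Set V := ball (0 : V) (1 / 64) with hBdef
  have hvpos : 0 < volume B := measure_ball_pos _ _ (by norm_num)
  have hvfin : volume B ≠ ⊤ := measure_ball_lt_top.ne
  set b : ℝ := (volume B).toReal with hbdef
  have hb : 0 < b := ENNReal.toReal_pos hvpos.ne' hvfin
  have hvb : volume B = ENNReal.ofReal b := (ENNReal.ofReal_toReal hvfin).symm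
  refine ⟨C * (1 + b⁻¹), by positivity, fun q hq => ?_⟩
  obtain ⟨K, om, hom, hLO⟩ := hLO q hq
  refine ⟨K, om * e / 16, by positivity, fun U u G hSM => ?_⟩
  intro x s hs hball hth hW
  have hG := hSM.gd.memG
  set A : ℝ := 2 ^ (4 * q) with hA
  have hA1 : (256 : ℝ) ≤ A := by
    rw [hA, show (256 : ℝ) = 2 ^ 8 by norm_num]
    exact pow_le_pow_right₀ (by norm_num) (by omega)
  set R : ℝ := A * s with hR
  have hRpos : 0 < R := by positivity
  set σ : ℝ := (1 / 2) ^ (4 * q) with hσ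
  have hσA : σ * A = 1 := by
    rw [hσ, hA, ← mul_pow]; norm_num
  have hσpos : 0 < σ := by positivity
  have hσle : σ ≤ 1 / 256 := by
    have : σ = 1 / A := by field_simp; exact hσA
    rw [this]
    exact one_div_le_one_div_of_le (by norm_num) hA1
  have hRσ : R * σ = s := by rw [hR]; linear_combination s * hσA
  -- two points
  obtain ⟨p, hp, p', hp', hdp, hdp', hdist⟩ := hPTS m Λ e om hΛ he hom G hSM.gd (4 * q) K x s hs
    ((ball_subset_ball (by nlinarith)).trans hball) heΛ hth hW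
  rw [mem_ball] at hp hp'
  have hdpos : 0 < dist p p' := lt_of_lt_of_le (by positivity) hdist
  have hdle : dist p p' < 2 * s := by
    have := dist_triangle_right p p' x
    linarith
  have hne : ‖p' - p‖ = dist p p' := by rw [dist_comm, dist_eq_norm]
  -- the isometry
  obtain ⟨g, hg⟩ := exists_iso ((dist p p')⁻¹ • (p' - p)) (by
    rw [norm_smul, hne, norm_inv, Real.norm_of_nonneg hdpos.le, inv_mul_cancel₀ hdpos.ne'])
  have hpR : ball p (2 * R) ⊆ ball 0 2 := by
    refine (ball_subset_ball' ?_).trans hball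
    rw [hR]
    nlinarith
  obtain ⟨hm', -, -, -, h5, h6⟩ := hZMU m G p R g hG hRpos hpR
  obtain ⟨hSM', -⟩ := hZOM m L Λ ε U u G hSM p R g hRpos hpR
  -- the point of the cell
  set x₀ : V := g.symm (R⁻¹ • (x - p)) with hx₀
  have hzx : zm p R g x₀ = x := by
    simp only [zm, hx₀, LinearIsometryEquiv.apply_symm_apply]
    rw [smul_inv_smul₀ hRpos.ne']
    abel
  have hx0n : ‖x₀‖ = R⁻¹ * dist p x := by
    rw [hx₀, LinearIsometryEquiv.norm_map, norm_smul, norm_inv, Real.norm_of_nonneg hRpos.le,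
      dist_comm p x, dist_eq_norm]
  have hx0 : ‖x₀‖ < σ := by
    rw [hx0n]
    calc R⁻¹ * dist p x < R⁻¹ * s := by gcongr
      _ = σ := by rw [← hRσ]; field_simp
  -- the second point
  set D : ℝ := dist p p' / R with hD
  have hzD : zm p R g (D • bv 2) = p' := by
    simp only [zm, map_smul, hg, hD, smul_smul]
    rw [show R * (dist p p' / R * (dist p p')⁻¹) = 1 by field_simp, one_smul]
    abel
  have hD1 : e / (16 * Λ) * σ ≤ D := by
    rw [hD, le_div_iff₀ hRpos]
    calc e / (16 * Λ) * σ * R = e / (16 * Λ) * (R * σ) := by ring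
      _ = e / (16 * Λ) * s := by rw [hRσ]
      _ ≤ _ := hdist
  have hD2 : D ≤ 2 * σ := by
    rw [hD, div_le_iff₀ hRpos]
    calc dist p p' ≤ 2 * s := hdle.le
      _ = 2 * σ * R := by rw [← hRσ]; ring
  have hDpos : 0 < D := by positivity
  have hzm0 : zm p R g 0 = p := by simp [zm]
  have hτpos : (0 : ℝ) < (1 / 2) ^ K := by positivity
  have hτle : ((1 : ℝ) / 2) ^ K ≤ 1 := pow_le_one₀ (by norm_num) (by norm_num)
  have hbb : ∀ (y : V) (t : ℝ), ‖y‖ + t ≤ 2 → ball y t ⊆ ball 0 2 := by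
    intro y t h
    refine ball_subset_ball' ?_
    rw [dist_zero_right]
    linarith
  have hDn : ‖D • (bv 2 : V)‖ ≤ 1 / 128 := by
    rw [norm_smul, norm_bv, mul_one, Real.norm_of_nonneg hDpos.le]
    linarith
  have hFr : Fr (zG p R g G) σ ((1 / 2) ^ K) om (e / (16 * Λ)) D e x₀ := by
    refine ⟨hx0, ?_, hD1, hD2, ?_, ?_⟩
    · rw [h5 x₀ σ hσpos (hbb _ _ (by linarith)), hzx, hRσ]
      exact hth
    · rw [h5 0 1 one_pos (hbb _ _ (by rw [norm_zero]; norm_num)),
        h5 0 _ hτpos (hbb _ _ (by rw [norm_zero]; linarith)), hzm0]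
      have := hdp
      unfold dr at this
      rw [show R * (1 / 2) ^ K = 2 ^ (4 * q) * s / 2 ^ K by
        rw [hR, hA, one_div, inv_pow]; ring, mul_one]
      exact this
    · rw [h5 _ 1 one_pos (hbb _ _ (by linarith)), h5 _ _ hτpos (hbb _ _ (by linarith)), hzD]
      have := hdp'
      unfold dr at this
      rw [show R * (1 / 2) ^ K = 2 ^ (4 * q) * s / 2 ^ K by
        rw [hR, hA, one_div, inv_pow]; ring, mul_one]
      exact this
  obtain ⟨hL1, hL2, hL3⟩ := hLO _ _ _ hSM' D x₀ hFr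
  -- the right side
  set h : ℝ := (1 / 2) ^ (24 * q) with hh
  have hhpos : 0 < h := by positivity
  have hhle : h ≤ 1 / 256 := by
    calc h ≤ (1 / 2) ^ 8 := pow_le_pow_of_le_one (by norm_num) (by norm_num) (by omega)
      _ = 1 / 256 := by norm_num
  have hAh : R * (2 * h) = 2 * (1 / 2) ^ (20 * q) * s := by
    have : A * h = (1 / 2) ^ (20 * q) := by
      rw [hA, hh, show 24 * q = 4 * q + 20 * q by ring, pow_add, ← mul_assoc, ← mul_pow]
      norm_num
    rw [hR]
    linear_combination 2 * s * this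
  set S : Set V := {y : V | rho y < h / 2 ∧ |y 2| < 7 / 16} with hSdef
  have hSm : MeasurableSet S := by
    have h1 : Measurable (fun y : V => rho y) := by
      unfold rho
      fun_prop
    have h2 : Measurable (fun y : V => |y 2|) := by fun_prop
    exact (measurableSet_lt h1 measurable_const).inter (measurableSet_lt h2 measurable_const)
  have hSn : ∀ y ∈ S, ‖y‖ < 1 / 2 := by
    intro y hy
    have := rho_le y
    linarith [hy.1, hy.2]
  have hzb : ∀ y : V, ‖y‖ ≤ 1 / 2 → zm p R g y ∈ ball x R := by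
    intro y hy
    rw [mem_ball]
    have h1 : dist (zm p R g y) p = R * ‖y‖ := by
      rw [dist_eq_norm]
      simp only [zm, add_sub_cancel_left]
      rw [norm_smul, LinearIsometryEquiv.norm_map, Real.norm_of_nonneg hRpos.le]
    have h2 := dist_triangle (zm p R g y) p x
    rw [h1] at h2
    have h3 : s ≤ R / 256 := by
      rw [← hRσ]
      calc R * σ ≤ R * (1 / 256) := by gcongr
        _ = R / 256 := by ring
    have h4 : R * ‖y‖ ≤ R * (1 / 2) := by gcongr
    linarith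
  have hT1 : ∫⁻ y in S, bs (zG p R g G) y (2 * h) ≤ ENNReal.ofReal ((R ^ 3)⁻¹) *
      ∫⁻ z in {z : V | z ∈ ball x R ∧ e ≤ th G z (2 * (1 / 2) ^ (20 * q) * s)},
        bs G z (2 * (1 / 2) ^ (20 * q) * s) := by
    have := transport (e := e) hZMU hBTM hG p g hRpos hpR hSm (t := 2 * h) (by positivity) x
      (fun y hy => hbb _ _ (by linarith [hSn y hy])) (fun y hy => hL1 y hy.1 hy.2)
      (fun y hy => hzb y (hSn y hy).le)
    rwa [hAh] at this
  have hT2 : ∫⁻ y in B, bs (zG p R g G) y (1 / 8) ≤ ENNReal.ofReal ((R ^ 3)⁻¹) *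
      ∫⁻ z in {z : V | z ∈ ball x R ∧ e ≤ th G z (R / 8)}, bs G z (R / 8) := by
    have := transport (e := e) hZMU hBTM hG p g hRpos hpR (measurableSet_ball (x := (0 : V))
      (ε := 1 / 64)) (t := 1 / 8) (by norm_num) x
      (fun y hy => hbb _ _ (by
        rw [mem_ball_zero_iff] at hy
        linarith)) (fun y hy => hL2 y hy)
      (fun y hy => hzb y (by
        rw [mem_ball_zero_iff] at hy
        linarith))
    rwa [show R * (1 / 8) = R / 8 by ring] at this
  -- averaging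
  have key : ∀ X : ℝ≥0∞, (∀ x₁ ∈ B, X ≤ Rf (zG p R g G) C q x₁) →
      X ≤ Rg G e (C * (1 + b⁻¹)) q x s := by
    intro X hX
    have hX' := avg_le hb hvb (measurable_bs hBTM hm' (t := 1 / 8) (by norm_num)) hX
    refine hX'.trans ?_
    unfold Rg
    rw [ENNReal.ofReal_mul hC, mul_assoc]
    refine mul_le_mul_right ?_ _
    rw [mul_add]
    have hone : (1 : ℝ≥0∞) ≤ ENNReal.ofReal (1 + b⁻¹) := by
      rw [← ENNReal.ofReal_one]
      exact ENNReal.ofReal_le_ofReal (by linarith [inv_pos.2 hb])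
    have hbo : ENNReal.ofReal b⁻¹ ≤ ENNReal.ofReal (1 + b⁻¹) :=
      ENNReal.ofReal_le_ofReal (by linarith)
    refine add_le_add ?_ ?_
    · calc ENNReal.ofReal (2 ^ (47 * q)) * ∫⁻ y in S, bs (zG p R g G) y (2 * h)
          ≤ ENNReal.ofReal (2 ^ (47 * q)) * (ENNReal.ofReal ((R ^ 3)⁻¹) *
            ∫⁻ z in {z : V | z ∈ ball x R ∧ e ≤ th G z (2 * (1 / 2) ^ (20 * q) * s)},
              bs G z (2 * (1 / 2) ^ (20 * q) * s)) := mul_le_mul_right hT1 _
        _ = 1 * (ENNReal.ofReal (2 ^ (47 * q) * (R ^ 3)⁻¹) *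
            ∫⁻ z in {z : V | z ∈ ball x R ∧ e ≤ th G z (2 * (1 / 2) ^ (20 * q) * s)},
              bs G z (2 * (1 / 2) ^ (20 * q) * s)) := by
            rw [ENNReal.ofReal_mul (by positivity), one_mul, ← mul_assoc]
        _ ≤ _ := mul_le_mul_left hone _
    · calc ENNReal.ofReal ((1 / 2) ^ q) *
            (ENNReal.ofReal b⁻¹ * ∫⁻ y in B, bs (zG p R g G) y (1 / 8))
          ≤ ENNReal.ofReal ((1 / 2) ^ q) * (ENNReal.ofReal b⁻¹ * (ENNReal.ofReal ((R ^ 3)⁻¹) *
            ∫⁻ z in {z : V | z ∈ ball x R ∧ e ≤ th G z (R / 8)}, bs G z (R / 8))) := by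
            gcongr
        _ = ENNReal.ofReal b⁻¹ * (ENNReal.ofReal ((1 / 2) ^ q * (R ^ 3)⁻¹) *
            ∫⁻ z in {z : V | z ∈ ball x R ∧ e ≤ th G z (R / 8)}, bs G z (R / 8)) := by
            rw [ENNReal.ofReal_mul (by positivity)]
            ring
        _ ≤ _ := mul_le_mul_left hbo _
  have hbx : ∀ t : ℝ, 0 < t → t ≤ 1 / 16 → th (zG p R g G) x₀ t = th G x (R * t) := by
    intro t ht ht'
    rw [h5 x₀ t ht (hbb _ _ (by linarith)), hzx]
  refine ⟨?_, ?_⟩
  · have hbs : bs (zG p R g G) x₀ σ = bs G x s := by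
      simp only [bs]
      rw [h6 x₀ σ hσpos (hbb _ _ (by linarith)), hzx, hRσ]
    rw [← hbs]
    exact key _ (fun x₁ hx₁ => (hL3 x₁ hx₁).1)
  · intro hlt
    have e8 : R * (σ / 8) = s / 8 := by rw [← hRσ]; ring
    have e128 : R * (σ / 128) = s / 128 := by rw [← hRσ]; ring
    have hlt' : th (zG p R g G) x₀ (σ / 8) < 2 * e := by
      rw [hbx _ (by positivity) (by linarith), e8]
      exact hlt
    have h128 : th (zG p R g G) x₀ (σ / 128) = th G x (s / 128) := by
      rw [hbx _ (by positivity) (by linarith), e128]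
    rw [← h128]
    exact key _ (fun x₁ hx₁ => (hL3 x₁ hx₁).2 hlt')

end

end Pool.Agent.H3.D3
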